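import Mathlib

/-!
# A compactum cleavable over an ordinal in which it does not embed

`X` is the disjoint union of three copies of `ω₁·ω + 1` and `lam = ω₁·ω·2 + 1`.
-/

open Set Topology Ordinal OnePoint Order Filter

namespace Pool.Agent.Results.MP_23516e_gt.NotEmbeddable

/-- `X` is cleavable over `Y`: for each `A ⊆ X` there is a continuous map `f : X → Y` with
`f⁻¹(f(A)) = A`. -/
def Cleavable (X Y : Type*) [TopologicalSpace X] [TopologicalSpace Y] : Prop :=
  ∀ A : Set X, ∃ f : X → Y, Continuous f ∧ f ⁻¹' (f '' A) = A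

/-- The first uncountable ordinal. -/
noncomputable abbrev om : Ordinal.{0} := ω_ 1

lemma om_pos : (0 : Ordinal) < om := omega_pos 1

lemma one_add_om : 1 + om = om := one_add_of_omega0_le (omega0_le_omega 1)

/-- The space `ω₁ + 1`. -/
abbrev W : Type 1 := Iic om

/-- The space `ω₁·ω + 1`. -/
abbrev Y : Type 1 := OnePoint (ℕ × W)

/-- Three copies of the space `ω₁·ω + 1`. -/
abbrev X : Type 1 := Fin 3 × Y

instance : CompactSpace W := by
  rw [← isCompact_iff_compactSpace]
  rw [← Icc_bot]
  exact isCompact_Icc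

lemma fin_mem {F : Set ℕ} (hF : F.Finite) :
    {l : ℕ × W | l.1 ∉ F} ∈ coclosedCompact (ℕ × W) := by
  have h1 : IsCompact (F ×ˢ (univ : Set W)) := hF.isCompact.prod isCompact_univ
  have h2 : IsClosed (F ×ˢ (univ : Set W)) := hF.isClosed.prod isClosed_univ
  have h3 := h1.compl_mem_coclosedCompact_of_isClosed h2
  refine mem_of_superset h3 fun l hl h => hl ⟨h, mem_univ _⟩

lemma fin_of_mem {A : Set Y} (hA : A ∈ 𝓝 ∞) :
    ∃ F : Set ℕ, F.Finite ∧ ∀ l : ℕ × W, l.1 ∉ F → (l : Y) ∈ A := by
  have h1 := (tendsto_coe_infty (X := ℕ × W)) hA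
  rw [Filter.mem_map, hasBasis_coclosedCompact.mem_iff] at h1
  obtain ⟨t, ⟨_, htc⟩, ht⟩ := h1
  refine ⟨Prod.fst '' t, (htc.image continuous_fst).finite_of_discrete, fun l hl => ?_⟩
  by_contra hcon
  exact hl ⟨l, by_contra fun h => hcon (ht h), rfl⟩

/-! ### Positions in the ordinal -/

/-- The point number `d` of the block number `b + n`. -/
noncomputable def pos (b : Ordinal.{0}) (n : ℕ) (d : Ordinal.{0}) : Ordinal.{0} :=
  om * (b + n) + (1 + d)

lemma lt_pos (b : Ordinal) (n : ℕ) (d : Ordinal) : om * (b + n) < pos b n d := by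
  have : (0 : Ordinal) < 1 + d := lt_of_lt_of_le zero_lt_one (le_add_right le_rfl)
  simpa [pos] using (add_lt_add_iff_left (om * (b + n))).2 this

lemma pos_le (b : Ordinal) (n : ℕ) {d : Ordinal} (hd : d ≤ om) :
    pos b n d ≤ om * (b + n + 1) := by
  rw [mul_add_one]
  have : 1 + d ≤ 1 + om := by gcongr
  rw [one_add_om] at this
  exact add_le_add_right this _

lemma block_unique {z a a' : Ordinal} (h1 : om * a < z) (h2 : z ≤ om * (a + 1))
    (h1' : om * a' < z) (h2' : z ≤ om * (a' + 1)) : a = a' := by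
  have h3 : om * a < om * (a' + 1) := h1.trans_le h2'
  have h4 : om * a' < om * (a + 1) := h1'.trans_le h2
  have h5 := lt_of_mul_lt_mul_left' h3
  have h6 := lt_of_mul_lt_mul_left' h4
  rw [← succ_eq_add_one, lt_succ_iff] at h5 h6
  exact le_antisymm h5 h6

lemma not_block {l a : Ordinal} (hl : IsSuccLimit l) (h1 : om * a < om * l)
    (h2 : om * l ≤ om * (a + 1)) : False := by
  have h3 := lt_of_mul_lt_mul_left' h1
  have h4 : succ a < l := hl.succ_lt h3
  have h5 : om * (succ a) < om * l := (mul_lt_mul_iff_right₀ om_pos).2 h4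
  exact absurd (h2.trans_lt h5) (lt_irrefl _)

lemma continuous_pos (b : Ordinal) (n : ℕ) : Continuous (pos b n) := by
  have h1 : IsNormal (fun d : Ordinal => om * (b + n) + (1 + d)) :=
    (isNormal_add_right (om * (b + n))).comp (isNormal_add_right 1)
  exact h1.continuous

lemma pos_inj {b : Ordinal} {n : ℕ} {d d' : Ordinal} (h : pos b n d = pos b n d') : d = d' := by
  have h1 := add_left_cancel h
  exact add_left_cancel h1

/-- The first block of the copy number `o` of `ω₁·ω`. -/
noncomputable def bs (o : Bool) : Ordinal.{0} := if o then ω else 0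

lemma bs_inj {o o' : Bool} (h : bs o + ω = bs o' + ω) : o = o' := by
  have h0 : (ω : Ordinal.{0}) < ω + ω := by
    simp
  cases o <;> cases o' <;> simp [bs] at h ⊢

lemma bs_add_inj {o o' : Bool} {n n' : ℕ} (h : bs o + n = bs o' + n') : o = o' ∧ n = n' := by
  have hlt : ∀ m k : ℕ, (m : Ordinal.{0}) < ω + k := fun m k =>
    (natCast_lt_omega0 m).trans_le (le_add_right le_rfl)
  cases o <;> cases o'
  · simp [bs] at h; exact ⟨rfl, h⟩
  · simp [bs] at h; exact absurd h (hlt n n').ne
  · simp [bs] at h; exact absurd h.symm (hlt n' n).ne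
  · simp [bs] at h; exact ⟨rfl, h⟩

lemma bs_lim (o : Bool) : IsSuccLimit (bs o + ω) := by
  exact isSuccLimit_add _ isSuccLimit_omega0

/-- The ordinal over which we cleave. -/
noncomputable abbrev lam : Ordinal.{0} := om * (ω + ω) + 1

lemma bs_le (o : Bool) : bs o + ω ≤ ω + ω := by
  cases o <;> simp [bs]

lemma top_lt (o : Bool) : om * (bs o + ω) < lam := by
  show om * (bs o + ω) < om * (ω + ω) + 1
  rw [← succ_eq_add_one, lt_succ_iff]
  exact mul_le_mul_right (bs_le o) om

lemma pos_lt_top (o : Bool) (n : ℕ) {d : Ordinal} (hd : d ≤ om) :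
    pos (bs o) n d < om * (bs o + ω) := by
  refine (pos_le _ _ hd).trans_lt ?_
  refine (mul_lt_mul_iff_right₀ om_pos).2 ?_
  rw [add_assoc]
  refine (add_lt_add_iff_left _).2 ?_
  exact_mod_cast natCast_lt_omega0 (n + 1)

/-- The map which places the blocks of one copy of `ω₁·ω + 1`. -/
noncomputable def place (o : Bool) (v : ℕ → ℕ) (y : Y) : Ordinal.{0} :=
  y.elim (om * (bs o + ω)) (fun l => pos (bs o) (v l.1) l.2.1)

lemma place_lt (o : Bool) (v : ℕ → ℕ) (y : Y) : place o v y < lam := by
  induction y using OnePoint.rec with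
  | infty => exact top_lt o
  | coe l => exact (pos_lt_top o _ l.2.2).trans (top_lt o)

lemma continuous_place (o : Bool) {v : ℕ → ℕ} (hv : Function.Injective v) :
    Continuous (place o v) := by
  rw [OnePoint.continuous_iff]
  constructor
  · show Tendsto (fun l : ℕ × W => pos (bs o) (v l.1) l.2.1) (coclosedCompact (ℕ × W))
      (𝓝 (om * (bs o + ω)))
    rw [tendsto_order]
    constructor
    · intro u hu
      rw [lt_mul_iff_of_isSuccLimit (bs_lim o)] at hu
      obtain ⟨c, hc, huc⟩ := hu
      have : ∃ N : ℕ, c ≤ bs o + N := by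
        rcases lt_add_iff omega0_ne_zero |>.1 hc with h
        obtain ⟨d, hd, hcd⟩ := h
        obtain ⟨N, rfl⟩ := lt_omega0.1 hd
        exact ⟨N, hcd⟩
      obtain ⟨N, hN⟩ := this
      have hfin : {m : ℕ | v m < N}.Finite := (finite_lt_nat N).preimage hv.injOn
      refine mem_of_superset (fin_mem hfin) ?_
      intro l hl
      have hl' : N ≤ v l.1 := by
        by_contra hcon
        exact hl (not_le.1 hcon)
      show u < pos (bs o) (v l.1) l.2.1
      refine huc.trans_le (le_trans ?_ (lt_pos _ _ _).le)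
      gcongr
      refine hN.trans ?_
      gcongr
    · intro u hu
      exact Eventually.of_forall fun l => (pos_lt_top o _ l.2.2).trans hu
  · show Continuous (fun l : ℕ × W => pos (bs o) (v l.1) l.2.1)
    rw [continuous_prod_of_discrete_left]
    intro n
    exact (continuous_pos (bs o) (v n)).comp continuous_subtype_val

lemma place_eq {o o' : Bool} {v v' : ℕ → ℕ} {y y' : Y} (h : place o v y = place o' v' y') :
    o = o' ∧ ((y = ∞ ∧ y' = ∞) ∨ ∃ (m m' : ℕ) (d : W), y = (((m, d) : ℕ × W) : Y) ∧
      y' = (((m', d) : ℕ × W) : Y) ∧ v m = v' m') := by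
  induction y using OnePoint.rec with
  | infty =>
    induction y' using OnePoint.rec with
    | infty =>
      have h1 : om * (bs o + ω) = om * (bs o' + ω) := h
      exact ⟨bs_inj (mul_left_cancel₀ om_pos.ne' h1), Or.inl ⟨rfl, rfl⟩⟩
    | coe l =>
      exfalso
      have h1 : om * (bs o + ω) = pos (bs o') (v' l.1) l.2.1 := h
      refine not_block (bs_lim o) (a := bs o' + v' l.1) ?_ ?_
      · rw [h1]; exact lt_pos _ _ _
      · rw [h1]; exact pos_le _ _ l.2.2
  | coe l =>
    induction y' using OnePoint.rec with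
    | infty =>
      exfalso
      have h1 : pos (bs o) (v l.1) l.2.1 = om * (bs o' + ω) := h
      refine not_block (bs_lim o') (a := bs o + v l.1) ?_ ?_
      · rw [← h1]; exact lt_pos _ _ _
      · rw [← h1]; exact pos_le _ _ l.2.2
    | coe l' =>
      have h1 : pos (bs o) (v l.1) l.2.1 = pos (bs o') (v' l'.1) l'.2.1 := h
      have h2 := block_unique (lt_pos (bs o) (v l.1) l.2.1) (pos_le _ _ l.2.2)
        (by rw [h1]; exact lt_pos _ _ _) (by rw [h1]; exact pos_le _ _ l'.2.2)
      obtain ⟨h3, h4⟩ := bs_add_inj h2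
      refine ⟨h3, Or.inr ⟨l.1, l'.1, l.2, rfl, ?_, h4⟩⟩
      subst h3
      rw [h4] at h1
      have h5 : l.2 = l'.2 := Subtype.ext (pos_inj h1)
      rw [h5]

/-! ### Cleavability -/

lemma third : ∀ a b i j : Fin 3, a ≠ b → i ≠ a → i ≠ b → j ≠ a → j ≠ b → i = j := by decide

lemma two_of_three (p : Fin 3 → Prop) : ∃ a b : Fin 3, a ≠ b ∧ (p a ↔ p b) := by
  by_cases h0 : p 0 <;> by_cases h1 : p 1 <;> by_cases h2 : p 2
  · exact ⟨0, 1, by decide, by tauto⟩
  · exact ⟨0, 1, by decide, by tauto⟩
  · exact ⟨0, 2, by decide, by tauto⟩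
  · exact ⟨1, 2, by decide, by tauto⟩
  · exact ⟨1, 2, by decide, by tauto⟩
  · exact ⟨0, 2, by decide, by tauto⟩
  · exact ⟨0, 1, by decide, by tauto⟩
  · exact ⟨0, 1, by decide, by tauto⟩

/-- Which copy of `ω₁·ω + 1` is used. -/
def oo (a b i : Fin 3) : Bool := decide (i ≠ a ∧ i ≠ b)

/-- Which blocks are used. -/
def vv (a b i : Fin 3) (m : ℕ) : ℕ := if i = a then 2 * m else if i = b then 2 * m + 1 else m

lemma vv_inj (a b i : Fin 3) : Function.Injective (vv a b i) := by
  intro m m' h
  unfold vv at h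
  split_ifs at h <;> omega

lemma cleavable : Cleavable X (Iio lam) := by
  intro A
  obtain ⟨a, b, hab, hA⟩ := two_of_three (fun i => ((i, ∞) : X) ∈ A)
  refine ⟨fun x => ⟨place (oo a b x.1) (vv a b x.1) x.2, place_lt _ _ _⟩, ?_, ?_⟩
  · refine Continuous.subtype_mk ?_ _
    rw [continuous_prod_of_discrete_left]
    intro i
    exact continuous_place (oo a b i) (vv_inj a b i)
  · refine subset_antisymm ?_ (subset_preimage_image _ _)
    rintro ⟨i, y⟩ ⟨⟨j, y'⟩, hjA, hj⟩
    have h1 : place (oo a b j) (vv a b j) y' = place (oo a b i) (vv a b i) y :=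
      congrArg Subtype.val hj
    obtain ⟨h2, h3⟩ := place_eq h1
    have h4 : (i = j) ∨ (i = a ∧ j = b) ∨ (i = b ∧ j = a) := by
      by_cases hi : i ≠ a ∧ i ≠ b
      · have hj' : j ≠ a ∧ j ≠ b := by
          have : oo a b j = true := by rw [h2]; simp [oo, hi]
          simpa [oo] using this
        left
        exact third a b i j hab hi.1 hi.2 hj'.1 hj'.2
      · have hj' : ¬ (j ≠ a ∧ j ≠ b) := by
          intro hcon
          have h5 : oo a b j = true := by simp [oo, hcon]
          have h6 : oo a b i = false := by unfold oo; exact decide_eq_false hi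
          rw [h5, h6] at h2
          exact absurd h2 (by decide)
        by_cases hia : i = a <;> by_cases hja : j = a
        · left; rw [hia, hja]
        · right; left; refine ⟨hia, ?_⟩; by_contra hjb; exact hj' ⟨hja, hjb⟩
        · right; right; refine ⟨?_, hja⟩; by_contra hib; exact hi ⟨hia, hib⟩
        · left
          have e1 : i = b := by by_contra hib; exact hi ⟨hia, hib⟩
          have e2 : j = b := by by_contra hjb; exact hj' ⟨hja, hjb⟩
          rw [e1, e2]
    rcases h3 with ⟨hy', hy⟩ | ⟨m', m, d, hy', hy, hm⟩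
    · rw [hy'] at hjA
      rw [hy]
      rcases h4 with rfl | ⟨rfl, rfl⟩ | ⟨rfl, rfl⟩
      · exact hjA
      · exact hA.2 hjA
      · exact hA.1 hjA
    · have hij : i = j := by
        rcases h4 with h | ⟨rfl, rfl⟩ | ⟨rfl, rfl⟩
        · exact h
        · exfalso
          unfold vv at hm
          rw [if_neg hab.symm, if_pos rfl, if_pos rfl] at hm
          omega
        · exfalso
          unfold vv at hm
          rw [if_neg hab.symm, if_pos rfl, if_pos rfl] at hm
          omega
      subst hij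
      have h5 := vv_inj _ _ _ hm
      rw [hy', h5] at hjA
      rw [hy]
      exact hjA

/-! ### Non-embeddability -/

lemma not_countable_Iio_om : ¬ (Iio om).Countable := by
  intro h
  rw [Cardinal.countable_iff_lt_aleph_one, Cardinal.mk_Iio_ordinal, card_omega] at h
  simp at h

lemma countable_Iic {r : Ordinal.{0}} (hr : r < om) : (Iic r).Countable := by
  have h1 : (Iio (succ r)).Countable := by
    have h2 : succ r < om := (Cardinal.isSuccLimit_omega 1).succ_lt hr
    rw [Cardinal.lt_omega_iff_card_lt] at h2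
    rw [Cardinal.countable_iff_lt_aleph_one, Cardinal.mk_Iio_ordinal]
    have := Cardinal.lift_lt.{0, 1}.2 h2
    simpa using this
  rwa [Iio_succ] at h1

lemma exists_mul_of_not_countable {z : Ordinal.{0}} (h : ∀ U ∈ 𝓝 z, ¬ U.Countable) :
    ∃ a, z = om * a := by
  by_cases hr : z % om = 0
  · exact ⟨z / om, by simpa [hr] using (div_add_mod z om).symm⟩
  exfalso
  have hz : om * (z / om) + z % om = z := div_add_mod z om
  have hlt : om * (z / om) < z := by
    conv_rhs => rw [← hz]
    simpa using pos_iff_ne_zero.2 hr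
  refine h (Ioo (om * (z / om)) (succ z)) (Ioo_mem_nhds hlt (lt_succ z)) ?_
  refine ((countable_Iic (mod_lt z om_pos.ne')).image (fun t => om * (z / om) + t)).mono ?_
  rintro t ⟨ht1, ht2⟩
  refine ⟨t - om * (z / om), ?_, Ordinal.add_sub_cancel_of_le ht1.le⟩
  rw [lt_succ_iff] at ht2
  show t - om * (z / om) ≤ z % om
  rw [Ordinal.sub_le, hz]
  exact ht2

lemma isSuccLimit_of_acc {z : Ordinal.{0}}
    (h : ∀ U ∈ 𝓝 z, ∃ t ∈ U, t ≠ z ∧ ∃ a, t = om * a) : ∃ l, IsSuccLimit l ∧ z = om * l := by
  have hz : om * (z / om) + z % om = z := div_add_mod z om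
  have hmod : z % om < om := mod_lt z om_pos.ne'
  have hzlt : z < om * (z / om + 1) := by
    conv_lhs => rw [← hz]
    rw [mul_add_one]
    exact (add_lt_add_iff_left _).2 hmod
  by_cases hr : z % om = 0
  · have hz' : z = om * (z / om) := by simpa [hr] using hz.symm
    refine ⟨z / om, ?_, hz'⟩
    rcases zero_or_succ_or_isSuccLimit (z / om) with h0 | ⟨b, hb⟩ | hl
    · exfalso
      rw [h0, mul_zero] at hz'
      obtain ⟨t, ht, htz, _⟩ := h (Iio 1) (Iio_mem_nhds (by rw [hz']; exact zero_lt_one))
      rw [hz'] at htz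
      exact htz (Order.lt_one_iff.1 ht)
    · exfalso
      have hlt : om * b < z := by
        rw [hz', ← hb]
        exact (mul_lt_mul_iff_right₀ om_pos).2 (lt_succ b)
      obtain ⟨t, ⟨ht1, ht2⟩, htz, a, rfl⟩ := h _ (Ioo_mem_nhds hlt hzlt)
      have h1 := lt_of_mul_lt_mul_left' ht1
      have h2 := lt_of_mul_lt_mul_left' ht2
      rw [← succ_eq_add_one, lt_succ_iff] at h2
      have h3 : z / om ≤ a := by rw [← hb]; exact succ_le_of_lt h1
      exact htz (by rw [le_antisymm h2 h3]; exact hz'.symm)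
    · exact hl
  · exfalso
    have hlt : om * (z / om) < z := by
      conv_rhs => rw [← hz]
      simpa using pos_iff_ne_zero.2 hr
    obtain ⟨t, ⟨ht1, ht2⟩, _, a, rfl⟩ := h _ (Ioo_mem_nhds hlt hzlt)
    have h1 := lt_of_mul_lt_mul_left' ht1
    have h2 := lt_of_mul_lt_mul_left' ht2
    rw [← succ_eq_add_one, lt_succ_iff] at h2
    exact absurd (h1.trans_le h2) (lt_irrefl _)

lemma lim_le {l : Ordinal.{0}} (hl : IsSuccLimit l) (h : l ≤ ω + ω) : l = ω ∨ l = ω + ω := by
  have h1 : ω ≤ l := omega0_le_of_isSuccLimit hl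
  have h2 : ω + (l - ω) = l := Ordinal.add_sub_cancel_of_le h1
  have h3 : l - ω ≤ ω := by rw [Ordinal.sub_le]; exact h
  rcases h3.lt_or_eq with h4 | h4
  · obtain ⟨k, hk⟩ := lt_omega0.1 h4
    cases k with
    | zero =>
      left
      rw [← h2, hk]
      simp
    | succ k =>
      exfalso
      have h5 : l = succ (ω + k) := by
        rw [← h2, hk, succ_eq_add_one, add_assoc]
        simp
      rw [h5] at hl
      exact not_isSuccLimit_succ _ hl
  · right
    rw [← h2, h4]

/-- The largest point of `ω₁ + 1`. -/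
noncomputable def wtop : W := ⟨om, mem_Iic.2 le_rfl⟩

lemma nhds_wtop {V : Set W} (hV : V ∈ 𝓝 wtop) : ¬ V.Countable := by
  intro hc
  rw [mem_nhds_subtype] at hV
  obtain ⟨u, hu, huV⟩ := hV
  have hu' : u ∈ 𝓝 om := hu
  obtain ⟨c, hc', hcu⟩ := exists_Ioc_subset_of_mem_nhds hu' ⟨0, om_pos⟩
  refine not_countable_Iio_om (((countable_Iic hc').union (hc.image Subtype.val)).mono ?_)
  intro t ht
  rcases le_or_gt t c with h | h
  · exact Or.inl h
  · right
    have ht' : t ≤ om := le_of_lt ht
    exact ⟨⟨t, ht'⟩, huV (hcu ⟨h, ht'⟩), rfl⟩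

lemma not_injective {G : X → Ordinal.{0}} (hc : Continuous G) (hi : Function.Injective G)
    (hlt : ∀ x, G x < lam) : False := by
  have h1 : ∀ (i : Fin 3) (m : ℕ), ∃ a, G (i, (((m, wtop) : ℕ × W) : Y)) = om * a := by
    intro i m
    refine exists_mul_of_not_countable fun U hU hUc => ?_
    have hcont : Continuous (fun d : W => G (i, (((m, d) : ℕ × W) : Y))) :=
      hc.comp (continuous_const.prodMk (continuous_coe.comp (continuous_const.prodMk continuous_id)))
    refine nhds_wtop (hcont.continuousAt hU) (hUc.preimage_of_injOn ?_)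
    intro d _ d' _ h
    have h2 := congrArg Prod.snd (hi h)
    exact congrArg Prod.snd (OnePoint.coe_injective h2)
  have h2 : ∀ i : Fin 3, ∃ l, IsSuccLimit l ∧ G (i, ∞) = om * l := by
    intro i
    refine isSuccLimit_of_acc fun U hU => ?_
    have hcont : Continuous (fun y : Y => G (i, y)) :=
      hc.comp (continuous_const.prodMk continuous_id)
    obtain ⟨F, hF, hFU⟩ := fin_of_mem (hcont.continuousAt hU)
    obtain ⟨m, hm⟩ := hF.exists_notMem
    refine ⟨_, hFU (m, wtop) hm, ?_, h1 i m⟩
    intro hcon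
    exact coe_ne_infty _ (congrArg Prod.snd (hi hcon))
  choose l hl hGl using h2
  have h3 : ∀ i, l i = ω ∨ l i = ω + ω := by
    intro i
    refine lim_le (hl i) ?_
    have h4 : om * l i < om * (ω + ω) + 1 := by rw [← hGl]; exact hlt _
    rw [← succ_eq_add_one, lt_succ_iff] at h4
    exact le_of_mul_le_mul_left h4 om_pos
  have h5 : ∀ i j, l i = l j → i = j := by
    intro i j h
    have : G (i, ∞) = G (j, ∞) := by rw [hGl, hGl, h]
    exact congrArg Prod.fst (hi this)
  rcases h3 0 with h | h <;> rcases h3 1 with h' | h' <;> rcases h3 2 with h'' | h''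
  · exact absurd (h5 0 1 (by rw [h, h'])) (by decide)
  · exact absurd (h5 0 1 (by rw [h, h'])) (by decide)
  · exact absurd (h5 0 2 (by rw [h, h''])) (by decide)
  · exact absurd (h5 1 2 (by rw [h', h''])) (by decide)
  · exact absurd (h5 1 2 (by rw [h', h''])) (by decide)
  · exact absurd (h5 0 2 (by rw [h, h''])) (by decide)
  · exact absurd (h5 0 1 (by rw [h, h'])) (by decide)
  · exact absurd (h5 0 1 (by rw [h, h'])) (by decide)

lemma om_lt_lam : om < lam := by
  show om < om * (ω + ω) + 1
  rw [← succ_eq_add_one, lt_succ_iff]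
  conv_lhs => rw [← mul_one om]
  gcongr
  exact one_lt_omega0.le.trans (le_add_right le_rfl)

instance : Small.{0} Y := by
  have h : Small.{0} ((ℕ × W) ⊕ PUnit.{1}) := inferInstance
  exact small_map (Equiv.optionEquivSumPUnit.{0} (ℕ × W))

/-- **Theorem.** There are an ordinal `lam > ω₁` and an infinite compactum `X` which is cleavable
over `lam` (the space of all smaller ordinals with the order topology) but which does not embed
into it. -/
theorem result :
    ∃ lam : Ordinal.{0}, ω_ 1 < lam ∧ ∃ (X : Type) (_ : TopologicalSpace X),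
      CompactSpace X ∧ T2Space X ∧ Infinite X ∧ Cleavable X (Iio lam) ∧
      ¬ ∃ g : X → Iio lam, IsEmbedding g := by
  let e : Shrink.{0} X ≃ X := (equivShrink X).symm
  letI t : TopologicalSpace (Shrink.{0} X) := TopologicalSpace.induced e inferInstance
  let H : Shrink.{0} X ≃ₜ X := e.toHomeomorphOfIsInducing ⟨rfl⟩
  refine ⟨lam, om_lt_lam, Shrink.{0} X, t, ?_, ?_, ?_, ?_, ?_⟩
  · exact H.symm.compactSpace
  · exact H.symm.t2Space
  · exact Infinite.of_injective _ (H.symm.injective.comp
      ((Prod.mk_right_injective (0 : Fin 3)).comp ((OnePoint.coe_injective).comp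
        (Prod.mk_left_injective wtop) : Function.Injective fun n : ℕ => (((n, wtop) : ℕ × W) : Y))))
  · intro A
    obtain ⟨f, hf, hfA⟩ := cleavable (H '' A)
    refine ⟨f ∘ H, hf.comp H.continuous, ?_⟩
    rw [image_comp, preimage_comp, hfA, H.injective.preimage_image]
  · rintro ⟨g, hg⟩
    refine not_injective (G := fun x => (g (H.symm x)).1) ?_ ?_ ?_
    · exact continuous_subtype_val.comp (hg.continuous.comp H.symm.continuous)
    · exact Subtype.val_injective.comp (hg.injective.comp H.symm.injective)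
    · exact fun x => (g (H.symm x)).2

end Pool.Agent.Results.MP_23516e_gt.NotEmbeddable
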